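import Pool.Agent.X8.BC

/-! Upper broadcast numbers are not monotone for isometric subgraphs. -/

namespace Pool.Agent.Results.MP_3951c0_co.NotIsometricMonotone

open Pool.Agent.X8.BC

/-- distance table of the graph `H` on 8 vertices -/
def TH : List (List ℕ) :=
  [[0, 3, 2, 2, 2, 3, 3, 1], [3, 0, 2, 2, 1, 1, 1, 2], [2, 2, 0, 1, 2, 2, 1, 1],
   [2, 2, 1, 0, 2, 1, 2, 1], [2, 1, 2, 2, 0, 1, 1, 1], [3, 1, 2, 1, 1, 0, 1, 2],
   [3, 1, 1, 2, 1, 1, 0, 2], [1, 2, 1, 1, 1, 2, 2, 0]]

/-- distance table of the graph `G` on 7 vertices -/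
def TG : List (List ℕ) :=
  [[0, 2, 2, 2, 3, 3, 1], [2, 0, 1, 2, 2, 1, 1], [2, 1, 0, 2, 1, 2, 1], [2, 2, 2, 0, 1, 1, 1],
   [3, 2, 1, 1, 0, 1, 2], [3, 1, 2, 1, 1, 0, 2], [1, 1, 1, 1, 2, 2, 0]]

def DH (i j : ℕ) : ℕ := (TH.getD i []).getD j 0
def DG (i j : ℕ) : ℕ := (TG.getD i []).getD j 0
def eH (i : ℕ) : ℕ := [3, 3, 2, 2, 2, 3, 3, 2].getD i 0
def eG (i : ℕ) : ℕ := [3, 2, 2, 2, 3, 3, 2].getD i 0

/-- the graph `H` -/
def H : SimpleGraph (Fin 8) := tabGraph 8 DH

/-- the graph `G` -/
def G : SimpleGraph (Fin 7) := tabGraph 7 DG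

instance : DecidableRel H.Adj := inferInstanceAs (DecidableRel (tabGraph 8 DH).Adj)
instance : DecidableRel G.Adj := inferInstanceAs (DecidableRel (tabGraph 7 DG).Adj)

theorem okH : tabOk 8 DH = true := by decide +kernel
theorem okG : tabOk 7 DG = true := by decide +kernel

theorem distH : ∀ u v : Fin 8, H.dist u v = DH u v := fun u v => (tabOk_dist okH u v).2
theorem distG : ∀ u v : Fin 7, G.dist u v = DG u v := fun u v => (tabOk_dist okG u v).2

/-- the inclusion of `G` in `H` (the vertex 1 of `H` is left out) -/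
def φ : Fin 7 → Fin 8 := fun i => if i.1 = 0 then 0 else ⟨i.1 + 1, by omega⟩

theorem eccG (v : Fin 7) : ecc G v = eG v := ecc_eq G DG distG eG (by decide +kernel) v

/-- a minimal dominating broadcast of cost 4 on `G` -/
def f (i : ℕ) : ℕ := [2, 1, 1, 0, 0, 0, 0].getD i 0

theorem f_min : MinDom G (fun i => f i) := minDom_of_test G distG eG eccG f (by decide +kernel)

/-- There are finite connected graphs `G` (7 vertices) and `H` (8 vertices) and an embedding of `G`
in `H` as an isometric subgraph such that the upper broadcast number of `G` is larger than the one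
of `H`. -/
theorem result : ∃ (G : SimpleGraph (Fin 7)) (H : SimpleGraph (Fin 8)) (φ : Fin 7 → Fin 8),
    G.Connected ∧ H.Connected ∧ Function.Injective φ ∧
    (∀ u v, G.Adj u v → H.Adj (φ u) (φ v)) ∧
    (∀ u v, G.dist u v = H.dist (φ u) (φ v)) ∧
    upperB H < upperB G := by
  refine ⟨G, H, φ, tabOk_connected okG (by norm_num), tabOk_connected okH (by norm_num),
    by decide +kernel, by decide +kernel, ?_, ?_⟩
  · intro u v
    rw [distG, distH]
    revert u v
    decide +kernel
  · have h1 : upperB H ≤ 3 := upperB_le' H 3 (fun f hf =>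
      upperB_le H DH distH eH (by decide +kernel) 3 (by decide +kernel) f hf)
    have h2 : 4 ≤ upperB G := by
      have := le_upperB G f_min
      have hs : ∑ v : Fin 7, f v = 4 := by decide +kernel
      omega
    omega

end Pool.Agent.Results.MP_3951c0_co.NotIsometricMonotone
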